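import Pool.Agent.H223.EM.MDefs

set_option autoImplicit false

/-!
Eighth moment lower bound, MI5: the weight `wN` (fourth moment of `A`), instance `(4,4,4,4)`.
-/

namespace Pool.Agent.H202R2.EM5

open Finset Filter Topology MeasureTheory Complex
open Pool.Agent.H306R2 Pool.Agent.H306R2.SM Pool.Agent.H223.EM

noncomputable section

/-- the local weights of `wN` -/
def la (p : ℕ) (v : Fin 4 → ℕ) : ℝ :=
  if v 1 = 0 ∨ v 2 = 0 then
    ((v 0 : ℝ) + v 1 + 1) * ((v 2 : ℝ) + v 3 + 1) * ((v 0 : ℝ) + v 2 + 1) * ((v 1 : ℝ) + v 3 + 1) *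
      ((1 / (p : ℝ)) ^ (v 0) * (1 / (p : ℝ)) ^ (v 1) * (1 / (p : ℝ)) ^ (v 2) * (1 / (p : ℝ)) ^ (v 3))
  else 0

lemma la_nonneg (p : ℕ) (v : Fin 4 → ℕ) : 0 ≤ la p v := by
  unfold la; split_ifs <;> positivity

lemma pi_summable {r : ℕ} (g : ℕ → ℝ) (hg : ∀ n, 0 ≤ g n) (hs : Summable g) :
    Summable (fun v : Fin r → ℕ => ∏ i, g (v i)) := by
  refine summable_of_sum_le (c := (∑' n, g n) ^ r) (fun v => prod_nonneg fun i _ => hg _) fun s => ?_
  let N := s.sup (fun v => univ.sup v)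
  calc ∑ v ∈ s, ∏ i, g (v i) ≤ ∑ v ∈ Fintype.piFinset (fun _ : Fin r => range (N + 1)), ∏ i, g (v i) := by
        refine sum_le_sum_of_subset_of_nonneg ?_ (fun v _ _ => prod_nonneg fun i _ => hg _)
        intro v hv
        rw [Fintype.mem_piFinset]
        intro i
        rw [mem_range]
        have h1 : v i ≤ univ.sup v := le_sup (f := v) (mem_univ i)
        have h2 : univ.sup v ≤ N := le_sup (f := fun v : Fin r → ℕ => univ.sup v) hv
        omega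
    _ = ∏ _i : Fin r, ∑ j ∈ range (N + 1), g j := by
        rw [Finset.prod_univ_sum]
    _ ≤ ∏ _i : Fin r, ∑' n, g n := by
        refine prod_le_prod (fun i _ => sum_nonneg fun j _ => hg j) (fun i _ => ?_)
        exact hs.sum_le_tsum _ (fun j _ => hg j)
    _ = (∑' n, g n) ^ r := by simp

lemma g_summable {x : ℝ} (hx0 : 0 ≤ x) (hx1 : x < 1) :
    Summable (fun n : ℕ => ((n : ℝ) + 1) ^ 2 * x ^ n) := by
  have h2 := summable_pow_mul_geometric_of_norm_lt_one 2 (r := x) (by rwa [Real.norm_of_nonneg hx0])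
  have h1 := summable_pow_mul_geometric_of_norm_lt_one 1 (r := x) (by rwa [Real.norm_of_nonneg hx0])
  have h0 := summable_pow_mul_geometric_of_norm_lt_one 0 (r := x) (by rwa [Real.norm_of_nonneg hx0])
  refine ((h2.add (h1.mul_left 2)).add h0).congr fun n => ?_
  ring

/-- crude majorant -/
lemma la_le {p : ℕ} (v : Fin 4 → ℕ) :
    la p v ≤ ∏ i, (((v i : ℝ) + 1) ^ 2 * (1 / (p : ℝ)) ^ (v i)) := by
  have hx : (0 : ℝ) ≤ 1 / (p : ℝ) := by positivity
  have e : ∏ i, (((v i : ℝ) + 1) ^ 2 * (1 / (p : ℝ)) ^ (v i)) =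
      (((v 0 : ℝ) + 1) * ((v 1 : ℝ) + 1)) * (((v 2 : ℝ) + 1) * ((v 3 : ℝ) + 1)) *
      (((v 0 : ℝ) + 1) * ((v 2 : ℝ) + 1)) * (((v 1 : ℝ) + 1) * ((v 3 : ℝ) + 1)) *
      ((1 / (p : ℝ)) ^ (v 0) * (1 / (p : ℝ)) ^ (v 1) * (1 / (p : ℝ)) ^ (v 2) * (1 / (p : ℝ)) ^ (v 3)) := by
    rw [Fin.prod_univ_four]; ring
  have hb : ∀ a b : ℕ, ((a : ℝ) + b + 1) ≤ ((a : ℝ) + 1) * ((b : ℝ) + 1) := by
    intro a b
    have : (0 : ℝ) ≤ (a : ℝ) * b := by positivity
    nlinarith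
  rw [e]
  unfold la
  split_ifs
  · have h1 := hb (v 0) (v 1)
    have h2 := hb (v 2) (v 3)
    have h3 := hb (v 0) (v 2)
    have h4 := hb (v 1) (v 3)
    gcongr
  · positivity

lemma prime_x {p : ℕ} (hp : p.Prime) : (0 : ℝ) ≤ 1 / (p : ℝ) ∧ 1 / (p : ℝ) ≤ 1 / 2 := by
  have h2 : (2 : ℝ) ≤ p := by exact_mod_cast hp.two_le
  refine ⟨by positivity, ?_⟩
  exact one_div_le_one_div_of_le (by norm_num) h2

lemma la_summable {p : ℕ} (hp : p.Prime) : Summable (la p) := by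
  obtain ⟨h0, h1⟩ := prime_x hp
  refine Summable.of_nonneg_of_le (la_nonneg p) (fun v => la_le v) ?_
  exact pi_summable (fun n : ℕ => ((n : ℝ) + 1) ^ 2 * (1 / (p : ℝ)) ^ n) (fun n => by positivity)
    (g_summable h0 (by linarith))

lemma la_first (p : ℕ) (i : Fin 4) : la p (Pi.single i 1) = 4 / (p : ℝ) := by
  fin_cases i <;> simp [la] <;> ring

lemma la_second_le {p : ℕ} (hp : p.Prime) (v : Fin 4 → ℕ) :
    (if 2 ≤ ∑ i, v i then la p v else 0) ≤
      4 / (p : ℝ) ^ 2 * ∏ i, (((v i : ℝ) + 1) ^ 2 * (1 / 2 : ℝ) ^ (v i)) := by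
  obtain ⟨h0, h1⟩ := prime_x hp
  have hpos : (0 : ℝ) < p := by exact_mod_cast hp.pos
  split_ifs with h
  · refine (la_le v).trans ?_
    rw [prod_mul_distrib, prod_mul_distrib, prod_pow_eq_pow_sum, prod_pow_eq_pow_sum]
    obtain ⟨k, hk⟩ := Nat.exists_eq_add_of_le h
    rw [hk, pow_add, pow_add]
    have h3 : (1 / (p : ℝ)) ^ k ≤ (1 / 2 : ℝ) ^ k := pow_le_pow_left₀ h0 h1 k
    have h4 : (0 : ℝ) ≤ ∏ i, ((v i : ℝ) + 1) ^ 2 := prod_nonneg fun i _ => by positivity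
    calc (∏ i, ((v i : ℝ) + 1) ^ 2) * ((1 / (p : ℝ)) ^ 2 * (1 / (p : ℝ)) ^ k)
        ≤ (∏ i, ((v i : ℝ) + 1) ^ 2) * ((1 / (p : ℝ)) ^ 2 * (1 / 2 : ℝ) ^ k) := by gcongr
      _ = 4 / (p : ℝ) ^ 2 * ((∏ i, ((v i : ℝ) + 1) ^ 2) * ((1 / 2 : ℝ) ^ 2 * (1 / 2 : ℝ) ^ k)) := by
        field_simp
        ring
  · have h4 : (0 : ℝ) ≤ ∏ i, (((v i : ℝ) + 1) ^ 2 * (1 / 2 : ℝ) ^ (v i)) :=
      prod_nonneg fun i _ => by positivity
    positivity

theorem la_LW : LW 4 ![4, 4, 4, 4] la where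
  nonneg p _ v := la_nonneg p v
  zero p _ := by simp [la]
  sum p hp := la_summable hp
  first := ⟨0, fun p hp i => by
    rw [la_first]
    have : (((![4, 4, 4, 4] : Fin 4 → ℕ) i : ℕ) : ℝ) = 4 := by fin_cases i <;> simp
    rw [this]; simp⟩
  second := ⟨4 * ∑' v : Fin 4 → ℕ, ∏ i, (((v i : ℝ) + 1) ^ 2 * (1 / 2 : ℝ) ^ (v i)), fun p hp => by
    have hs : Summable (fun v : Fin 4 → ℕ => ∏ i, (((v i : ℝ) + 1) ^ 2 * (1 / 2 : ℝ) ^ (v i))) :=
      pi_summable (fun n : ℕ => ((n : ℝ) + 1) ^ 2 * (1 / 2 : ℝ) ^ n) (fun n => by positivity)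
        (g_summable (by norm_num) (by norm_num))
    have hs' := hs.mul_left (4 / (p : ℝ) ^ 2)
    have hl : Summable (fun v : Fin 4 → ℕ => if 2 ≤ ∑ i, v i then la p v else 0) := by
      refine Summable.of_nonneg_of_le (fun v => ?_) (fun v => la_second_le hp v) hs'
      split_ifs
      · exact la_nonneg p v
      · exact le_rfl
    refine (hl.tsum_le_tsum (fun v => la_second_le hp v) hs').trans ?_
    rw [tsum_mul_left]
    apply le_of_eq; ring⟩

/-! ### `wN = mw la` -/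

lemma d2_eq {P : Finset ℕ} {n : ℕ} (hn : n ≠ 0) (hP : n.primeFactors ⊆ P) :
    d2 n = ∏ p ∈ P, ((n.factorization p : ℝ) + 1) := by
  unfold d2
  rw [Nat.card_divisors hn]
  push_cast
  refine prod_subset hP fun p _ hp => ?_
  have : n.factorization p = 0 := by
    rw [← Finsupp.notMem_support_iff, Nat.support_factorization]; exact hp
  rw [this]; simp

lemma inv_eq {P : Finset ℕ} {n : ℕ} (hn : n ≠ 0) (hP : n.primeFactors ⊆ P) :
    (1 : ℝ) / n = ∏ p ∈ P, (1 / (p : ℝ)) ^ (n.factorization p) := by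
  have h1 : (n : ℝ) = ∏ p ∈ P, (p : ℝ) ^ (n.factorization p) := by
    conv_lhs => rw [← Nat.prod_factorization_pow_eq_self hn]
    unfold Finsupp.prod
    push_cast
    rw [Nat.support_factorization]
    refine prod_subset hP fun p _ hp => ?_
    have : n.factorization p = 0 := by
      rw [← Finsupp.notMem_support_iff, Nat.support_factorization]; exact hp
    rw [this]; simp
  rw [h1, one_div, ← prod_inv_distrib]
  refine prod_congr rfl fun p _ => ?_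
  rw [one_div, inv_pow]

lemma wN_eq : wN = mw la := by
  funext b
  unfold wN mw
  by_cases hb : ∀ i, b i ≠ 0
  · rw [if_pos hb]
    set P := (∏ i, b i).primeFactors with hPdef
    have hprod : (∏ i, b i) ≠ 0 := prod_ne_zero_iff.2 fun i _ => hb i
    have hsub : ∀ i, (b i).primeFactors ⊆ P := fun i =>
      Nat.primeFactors_mono (dvd_prod_of_mem b (mem_univ i)) hprod
    have hsub2 : ∀ i j, (b i * b j).primeFactors ⊆ P := fun i j => by
      rw [Nat.primeFactors_mul (hb i) (hb j)]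
      exact union_subset (hsub i) (hsub j)
    by_cases hc : Nat.Coprime (b 1) (b 2)
    · rw [if_pos ⟨hc, hb⟩]
      have hd : ∀ i j, d2 (b i * b j) =
          ∏ p ∈ P, (((b i).factorization p : ℝ) + (b j).factorization p + 1) := fun i j => by
        rw [d2_eq (mul_ne_zero (hb i) (hb j)) (hsub2 i j)]
        refine prod_congr rfl fun p _ => ?_
        rw [Nat.factorization_mul (hb i) (hb j)]
        simp
      have hi : (1 : ℝ) / ((b 0 : ℝ) * (b 1 : ℝ) * (b 2 : ℝ) * (b 3 : ℝ)) =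
          ∏ p ∈ P, ((1 / (p : ℝ)) ^ ((b 0).factorization p) * (1 / (p : ℝ)) ^ ((b 1).factorization p) *
            (1 / (p : ℝ)) ^ ((b 2).factorization p) * (1 / (p : ℝ)) ^ ((b 3).factorization p)) := by
        rw [prod_mul_distrib, prod_mul_distrib, prod_mul_distrib, ← inv_eq (hb 0) (hsub 0),
          ← inv_eq (hb 1) (hsub 1), ← inv_eq (hb 2) (hsub 2), ← inv_eq (hb 3) (hsub 3)]
        rw [one_div_mul_one_div, one_div_mul_one_div, one_div_mul_one_div]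
      rw [div_eq_mul_one_div, hi, hd, hd, hd, hd, ← prod_mul_distrib, ← prod_mul_distrib,
        ← prod_mul_distrib, ← prod_mul_distrib]
      refine prod_congr rfl fun p _ => ?_
      unfold la
      rw [if_pos]
      have h0 := hc.disjoint_primeFactors
      by_contra hcon
      push Not at hcon
      have h1 : p ∈ (b 1).primeFactors := by
        rw [← Nat.support_factorization, Finsupp.mem_support_iff]; exact hcon.1
      have h2 : p ∈ (b 2).primeFactors := by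
        rw [← Nat.support_factorization, Finsupp.mem_support_iff]; exact hcon.2
      exact (Finset.disjoint_left.1 h0 h1) h2
    · rw [if_neg (fun h => hc h.1)]
      symm
      obtain ⟨p, hp, h1, h2⟩ := Nat.Prime.not_coprime_iff_dvd.1 hc
      refine prod_eq_zero (i := p) ?_ ?_
      · rw [hPdef, Nat.mem_primeFactors]
        exact ⟨hp, h1.trans (dvd_prod_of_mem b (mem_univ 1)), hprod⟩
      · unfold la
        rw [if_neg]
        push Not
        exact ⟨(hp.factorization_pos_of_dvd (hb 1) h1).ne', (hp.factorization_pos_of_dvd (hb 2) h2).ne'⟩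
  · rw [if_neg hb, if_neg (fun h => hb h.2)]

/-! ### the local factor -/

lemma lc_four (m : ℕ) : lc 4 m = ((m : ℝ) + 1) * (m + 2) * (m + 3) / 6 := by
  unfold lc
  induction m with
  | zero => norm_num
  | succ n ih =>
    rw [prod_range_succ, ih]
    push_cast
    field_simp
    ring

lemma conv_sum (m : ℕ) : ∑ i : Fin (m + 1), (((i : ℕ) : ℝ) + 1) * (((m - (i : ℕ) : ℕ) : ℝ) + 1) = lc 4 m := by
  have h : ∀ (n : ℕ) (c : ℝ), ∑ i ∈ range n, ((i : ℝ) + 1) * (c - i) =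
      c * (n * (n + 1) / 2) - (n - 1) * n * (n + 1) / 3 := by
    intro n c
    induction n with
    | zero => simp
    | succ n ih =>
      rw [sum_range_succ, ih]; push_cast; ring
  rw [lc_four, Fin.sum_univ_eq_sum_range (fun i : ℕ => ((i : ℝ) + 1) * (((m - i : ℕ) : ℝ) + 1))]
  have h2 := h (m + 1) ((m : ℝ) + 1)
  have h3 : ∑ i ∈ range (m + 1), ((i : ℝ) + 1) * (((m - i : ℕ) : ℝ) + 1) =
      ∑ i ∈ range (m + 1), ((i : ℝ) + 1) * ((m : ℝ) + 1 - i) := by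
    refine sum_congr rfl fun i hi => ?_
    rw [mem_range] at hi
    rw [Nat.cast_sub (by omega)]
    ring
  rw [h3, h2]
  push_cast
  ring

/-- parametrisation of the support -/
def ph : (Σ m : ℕ, Fin (m + 1) × Fin (m + 1)) → (Fin 4 → ℕ) := fun c =>
  ![min (c.2.1 : ℕ) (c.2.2 : ℕ), (c.2.1 : ℕ) - (c.2.2 : ℕ), (c.2.2 : ℕ) - (c.2.1 : ℕ),
    min (c.1 - (c.2.1 : ℕ)) (c.1 - (c.2.2 : ℕ))]

lemma ph_inj : Function.Injective ph := by
  rintro ⟨m, i, j⟩ ⟨m', i', j'⟩ h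
  have h0 := congrFun h 0
  have h1 := congrFun h 1
  have h2 := congrFun h 2
  have h3 := congrFun h 3
  simp only [ph, Matrix.cons_val_zero, Matrix.cons_val_one, Matrix.cons_val] at h0 h1 h2 h3
  have hi := i.2
  have hj := j.2
  have hi' := i'.2
  have hj' := j'.2
  have hm : m = m' := by omega
  subst hm
  have e1 : i = i' := Fin.ext (by omega)
  have e2 : j = j' := Fin.ext (by omega)
  rw [e1, e2]

lemma ph_range (p : ℕ) : Function.support (la p) ⊆ Set.range ph := by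
  intro v hv
  have h : v 1 = 0 ∨ v 2 = 0 := by
    by_contra hcon
    apply hv
    unfold la
    rw [if_neg hcon]
  refine ⟨⟨v 0 + v 1 + v 2 + v 3, ⟨v 0 + v 1, by omega⟩, ⟨v 0 + v 2, by omega⟩⟩, ?_⟩
  funext i
  fin_cases i <;> simp [ph] <;> omega

lemma la_ph (p : ℕ) (m : ℕ) (i j : Fin (m + 1)) :
    la p (ph ⟨m, i, j⟩) = ((((i : ℕ) : ℝ) + 1) * (((m - (i : ℕ) : ℕ) : ℝ) + 1)) *
      ((((j : ℕ) : ℝ) + 1) * (((m - (j : ℕ) : ℕ) : ℝ) + 1)) * (1 / (p : ℝ)) ^ m := by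
  have hi := i.2
  have hj := j.2
  unfold la
  rw [if_pos (by simp [ph]; omega)]
  simp only [ph, Matrix.cons_val_zero, Matrix.cons_val_one, Matrix.cons_val]
  rw [← pow_add, ← pow_add, ← pow_add]
  have e1 : min (i : ℕ) (j : ℕ) + ((i : ℕ) - (j : ℕ)) = i := by omega
  have e2 : ((j : ℕ) - (i : ℕ)) + min (m - (i : ℕ)) (m - (j : ℕ)) = m - i := by omega
  have e3 : min (i : ℕ) (j : ℕ) + ((j : ℕ) - (i : ℕ)) = j := by omega
  have e4 : ((i : ℕ) - (j : ℕ)) + min (m - (i : ℕ)) (m - (j : ℕ)) = m - j := by omega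
  have e5 : min (i : ℕ) (j : ℕ) + ((i : ℕ) - (j : ℕ)) + ((j : ℕ) - (i : ℕ)) +
      min (m - (i : ℕ)) (m - (j : ℕ)) = m := by omega
  rw [e5, ← Nat.cast_add, ← Nat.cast_add, ← Nat.cast_add, ← Nat.cast_add, e1, e2, e3, e4]
  ring

lemma la_tsum {p : ℕ} (hp : p.Prime) :
    ∑' v, la p v = ∑' m : ℕ, lc 4 m ^ 2 * (1 / (p : ℝ)) ^ m := by
  rw [← ph_inj.tsum_eq (ph_range p)]
  have hs : Summable (fun c => la p (ph c)) := (la_summable hp).comp_injective ph_inj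
  rw [hs.tsum_sigma' (fun m => (hasSum_fintype _).summable)]
  refine tsum_congr fun m => ?_
  rw [tsum_fintype, Fintype.sum_prod_type]
  simp only [la_ph]
  rw [← conv_sum m, sq, sum_mul_sum, sum_mul]
  refine sum_congr rfl fun i _ => ?_
  rw [sum_mul]

theorem wN_lim
    (MEP : ∀ {r : ℕ} (_ : 0 < r) (m : Fin r → ℕ) (lam : ℕ → (Fin r → ℕ) → ℝ) (_ : LW r m lam),
      KH r (mw lam) ∧ ∀ s : Fin r → ℝ, (∀ i, 0 < s i) →
      Tendsto (fun L : ℝ => (∑' b : Fin r → ℕ, mw lam b * ∏ i, (b i : ℝ) ^ (-(s i / L))) /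
          L ^ ((∑ i, m i : ℕ) : ℝ)) atTop
        (𝓝 ((∏' p : Nat.Primes, ((1 - 1 / (p : ℝ)) ^ (∑ i, m i) * ∑' v : Fin r → ℕ, lam p v)) *
          ∏ i, (s i) ^ (-(m i : ℝ))))) :
    KH 4 wN ∧ ∀ s : Fin 4 → ℝ, (∀ i, 0 < s i) →
    Tendsto (fun L : ℝ => (∑' b : Fin 4 → ℕ, wN b * ∏ i, (b i : ℝ) ^ (-(s i / L))) / L ^ (16 : ℝ))
      atTop (𝓝 (aF 4 * ∏ i, (s i) ^ (-((![4, 4, 4, 4] : Fin 4 → ℝ) i)))) := by
  obtain ⟨h1, h2⟩ := MEP (r := 4) (by norm_num) ![4, 4, 4, 4] la la_LW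
  rw [wN_eq]
  refine ⟨h1, fun s hs => ?_⟩
  have h3 := h2 s hs
  have hm : (∑ i, (![4, 4, 4, 4] : Fin 4 → ℕ) i) = 16 := by simp [Fin.sum_univ_four]
  rw [hm] at h3
  have haF : (∏' p : Nat.Primes, ((1 - 1 / (p : ℝ)) ^ 16 * ∑' v : Fin 4 → ℕ, la p v)) = aF 4 := by
    unfold aF
    refine tprod_congr fun p => ?_
    rw [la_tsum p.2]
    norm_num
  rw [haF] at h3
  have hk : ∀ i, (((![4, 4, 4, 4] : Fin 4 → ℕ) i : ℕ) : ℝ) = (![4, 4, 4, 4] : Fin 4 → ℝ) i := by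
    intro i; fin_cases i <;> simp
  simp only [hk] at h3
  exact_mod_cast h3

end

end Pool.Agent.H202R2.EM5
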